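import Pool.Agent.Helper94_SQS.Stmts

/-!
# LOS
-/

set_option autoImplicit false

open MeasureTheory Filter Topology

namespace Pool.Agent.SQS.H18

section Tame

variable {S : Type} [TopologicalSpace S]

theorem tame_eval (x : S) : Tame fun f : C(S, ℝ) => f x := by
  unfold Tame
  have h1 : @Measurable C(S, ℝ) ℝ (MeasurableSpace.comap (fun f : C(S, ℝ) => f x) (borel ℝ)) _
      (fun f : C(S, ℝ) => f x) := comap_measurable _
  exact h1.mono (le_iSup (fun x : S => MeasurableSpace.comap (fun f : C(S, ℝ) => f x) (borel ℝ)) x)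
    le_rfl

theorem tame_const (c : ℝ) : Tame fun _ : C(S, ℝ) => c := by
  unfold Tame
  exact measurable_const

theorem tame_sum {ι : Type} (s : Finset ι) (φ : ι → C(S, ℝ) → ℝ) (h : ∀ i, Tame (φ i)) :
    Tame fun f => ∑ i ∈ s, φ i f := by
  unfold Tame at *
  exact Finset.measurable_sum s fun i _ => h i

theorem tame_mul_const {φ : C(S, ℝ) → ℝ} (h : Tame φ) (c : ℝ) : Tame fun f => c * φ f := by
  unfold Tame at *
  exact h.const_mul c

theorem tame_div_const {φ : C(S, ℝ) → ℝ} (h : Tame φ) (c : ℝ) : Tame fun f => φ f / c := by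
  unfold Tame at *
  exact h.div_const c

theorem tame_lim (h : ℕ → C(S, ℝ) → ℝ) (ψ : C(S, ℝ) → ℝ) (hh : ∀ n, Tame (h n))
    (hl : ∀ f, Tendsto (fun n => h n f) atTop (𝓝 (ψ f))) : Tame ψ := by
  unfold Tame at *
  let _ : MeasurableSpace C(S, ℝ) :=
    ⨆ x : S, MeasurableSpace.comap (fun f : C(S, ℝ) => f x) (borel ℝ)
  exact measurable_of_tendsto_metrizable hh (tendsto_pi_nhds.2 hl)

end Tame

theorem uni_cube (hu : UniStmt) (I : Type) (f : C(I → Bool, ℝ)) (ε : ℝ) (hε : 0 < ε) :
    ∃ S : Finset I, ∀ p q : I → Bool, (∀ i ∈ S, p i = q i) → |f p - f q| < ε := by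
  obtain ⟨S, hS⟩ := hu I Set.univ isClosed_univ
    (f.comp (⟨Subtype.val, continuous_subtype_val⟩ : C((Set.univ : Set (I → Bool)), I → Bool))) ε hε
  exact ⟨S, fun p q hpq => hS ⟨p, trivial⟩ ⟨q, trivial⟩ hpq⟩

theorem meas_cube (hm : MeasfStmt) (I : Type) (f : C(I → Bool, ℝ)) :
    Measurable fun p : I → Bool => f p := by
  have h1 := hm I Set.univ isClosed_univ
    (f.comp (⟨Subtype.val, continuous_subtype_val⟩ : C((Set.univ : Set (I → Bool)), I → Bool)))
  have h2 : Measurable fun p : I → Bool => (⟨p, trivial⟩ : (Set.univ : Set (I → Bool))) :=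
    measurable_id.subtype_mk
  exact h1.comp h2

/-- sets which depend on finitely many coordinates -/
theorem meas_dep {I : Type} (J : Finset I) (E : Set (I → Bool))
    (h : ∀ p q : I → Bool, (∀ j ∈ J, p j = q j) → (p ∈ E ↔ q ∈ E)) : MeasurableSet E := by
  have h1 : E = J.restrict ⁻¹' {a : J → Bool | ∃ p ∈ E, ∀ j : J, p j = a j} := by
    ext p
    simp only [Set.mem_preimage, Set.mem_ofPred_eq, Finset.restrict]
    constructor
    · exact fun hp => ⟨p, hp, fun _ => rfl⟩
    · rintro ⟨q, hq, hqp⟩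
      exact (h q p fun j hj => hqp ⟨j, hj⟩).1 hq
  rw [h1]
  have h2 : Measurable (J.restrict : (I → Bool) → J → Bool) := Finset.measurable_restrict J
  exact h2 (Set.Finite.measurableSet (Set.toFinite _))

/-- an injection for pairs -/
theorem inj_pair {I : Type} (e : I → ℕ → Bool) (he : Function.Injective e) :
    Function.Injective (fun (x : I × ℕ) (k : ℕ) =>
      if k % 2 = 0 then e x.1 (k / 2) else decide (k / 2 = x.2)) := by
  rintro ⟨i, n⟩ ⟨j, m⟩ h
  have h1 : i = j := by
    apply he
    funext k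
    have h2 := congrFun h (2 * k)
    have h3 : 2 * k % 2 = 0 := by omega
    have h4 : 2 * k / 2 = k := by omega
    simpa [h3, h4] using h2
  have h2 : n = m := by
    have h2 := congrFun h (2 * n + 1)
    have h3 : (2 * n + 1) % 2 = 1 := by omega
    have h4 : (2 * n + 1) / 2 = n := by omega
    simpa [h3, h4] using h2
  rw [h1, h2]

theorem los_prob (hu : UniStmt) (hm : MeasfStmt) (hB : LosBStmt) (hC : LosCStmt)
    (hD : LosDStmt) (I : Type) (e : I → ℕ → Bool) (he : Function.Injective e)
    (ν : Measure (I → Bool)) [IsProbabilityMeasure ν] :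
    Tame fun f : C(I → Bool, ℝ) => ∫ p, f p ∂ν := by
  classical
  obtain ⟨Y, hY, hYν⟩ := hB I ν
  let c := MeasurableEquiv.curry I ℕ Bool
  have hc : (coin (I × ℕ)).map c = Measure.infinitePi fun _ : I => coin ℕ :=
    Measure.infinitePi_map_curry (X := Bool) (fun (_ : I) (_ : ℕ) => unif)
  let Y' : (I × ℕ → Bool) → I → Bool := fun ω => Y (c ω)
  have hY' : Measurable Y' := hY.comp c.measurable
  have hY'ν : (coin (I × ℕ)).map Y' = ν := by
    rw [← hYν, ← hc, Measure.map_map hY c.measurable]
    rfl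
  let E : I → Set (I × ℕ → Bool) := fun i => {ω | Y' ω i = true}
  have hE : ∀ i, MeasurableSet (E i) := by
    intro i
    exact measurableSet_eq_fun ((measurable_pi_apply i).comp hY') measurable_const
  have hpos : ∀ n : ℕ, (0 : ℝ) < (1 / 2) ^ n := fun n => by positivity
  choose J E' hdep happ using fun (n : ℕ) (i : I) => hC (I × ℕ) (E i) (hE i) ((1 / 2) ^ n) (hpos n)
  let Yn : ℕ → (I × ℕ → Bool) → I → Bool := fun n ω i => decide (ω ∈ E' n i)
  have hYn : ∀ n, Measurable (Yn n) := by
    intro n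
    rw [measurable_pi_iff]
    intro i
    have h1 : MeasurableSet (E' n i) := meas_dep (J n i) _ (hdep n i)
    apply measurable_to_bool
    have h2 : (fun ω => Yn n ω i) ⁻¹' {true} = E' n i := by
      ext ω
      simp [Yn]
    rw [h2]
    exact h1
  have hbd : ∀ (f : C(I → Bool, ℝ)) (p : I → Bool), ‖f p‖ ≤ ‖f‖ := fun f p =>
    f.norm_coe_le_norm p
  -- the integrals converge
  have hlim : ∀ f : C(I → Bool, ℝ), Tendsto (fun n => ∫ ω, f (Yn n ω) ∂coin (I × ℕ)) atTop
      (𝓝 (∫ p, f p ∂ν)) := by
    intro f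
    have hf := meas_cube hm I f
    rw [← hY'ν, integral_map hY'.aemeasurable hf.aestronglyMeasurable]
    choose S hS using fun k : ℕ => uni_cube hu I f (1 / ((k : ℝ) + 1)) Nat.one_div_pos_of_nat
    have hBC : ∀ i, ∀ᵐ ω ∂coin (I × ℕ), ∀ᶠ n in atTop, ω ∉ symmDiff (E i) (E' n i) := by
      intro i
      apply ae_eventually_notMem
      have h1 : ∑' n, coin (I × ℕ) (symmDiff (E i) (E' n i)) ≤
          ∑' n : ℕ, ENNReal.ofReal ((1 / 2) ^ n) :=
        ENNReal.tsum_le_tsum fun n => happ n i
      refine ne_top_of_le_ne_top ?_ h1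
      rw [← ENNReal.ofReal_tsum_of_nonneg (fun n => (hpos n).le) summable_geometric_two]
      exact ENNReal.ofReal_ne_top
    have hae : ∀ᵐ ω ∂coin (I × ℕ), ∀ k : ℕ, ∀ i ∈ S k, ∀ᶠ n in atTop,
        ω ∉ symmDiff (E i) (E' n i) := by
      rw [ae_all_iff]
      intro k
      exact (ae_ball_iff (S k).countable_toSet).2 fun i _ => hBC i
    refine tendsto_integral_of_dominated_convergence (fun _ => ‖f‖) ?_ (integrable_const _) ?_ ?_
    · exact fun n => (hf.comp (hYn n)).aestronglyMeasurable
    · exact fun n => Eventually.of_forall fun ω => hbd f _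
    · filter_upwards [hae] with ω hω
      rw [Metric.tendsto_nhds]
      intro ε hε
      obtain ⟨k, hk⟩ := exists_nat_one_div_lt hε
      have h1 : ∀ᶠ n in atTop, ∀ i ∈ S k, ω ∉ symmDiff (E i) (E' n i) :=
        (Finset.eventually_all (S k)).2 (hω k)
      filter_upwards [h1] with n hn
      rw [Real.dist_eq]
      refine lt_trans (hS k _ _ fun i hi => ?_) hk
      have h2 := hn i hi
      rw [Set.mem_symmDiff] at h2
      simp only [Yn, Y']
      by_cases h3 : ω ∈ E' n i
      · have h4 : ω ∈ E i := by tauto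
        rw [decide_eq_true h3]
        exact h4.symm
      · have h4 : ω ∉ E i := by tauto
        rw [decide_eq_false h3]
        have h5 : Y' ω i ≠ true := h4
        simpa [Y'] using h5
  -- finite averages
  let e' : I × ℕ → ℕ → Bool := fun x k =>
    if k % 2 = 0 then e x.1 (k / 2) else decide (k / 2 = x.2)
  have he' : Function.Injective e' := inj_pair e he
  refine tame_lim _ _ (fun n => ?_) hlim
  refine tame_lim (fun m f => (∑ w : (Fin m → Bool) → Bool,
    f (Yn n (fun j => w (res m (e' j))))) / 2 ^ 2 ^ m) _ (fun m => ?_) (fun f => ?_)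
  · exact tame_div_const (tame_sum _ _ fun w => tame_eval _) _
  · rw [Metric.tendsto_atTop]
    intro ε hε
    obtain ⟨S, hS⟩ := uni_cube hu I f (ε / 4) (by linarith)
    let g : (I → Bool) → ℝ := fun p => f (fun i => if i ∈ S then p i else false)
    have hg : ∀ p, |f p - g p| < ε / 4 := by
      intro p
      apply hS
      intro i hi
      simp [hi]
    obtain ⟨N, hN⟩ := hD (I × ℕ) e' he' (fun ω => g (Yn n ω)) (S.biUnion fun i => J n i) (by
      intro p q hpq
      show f _ = f _
      congr 1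
      funext i
      by_cases hi : i ∈ S
      · simp only [hi, if_true, Yn]
        have h1 := hdep n i p q fun j hj => hpq j (Finset.mem_biUnion.2 ⟨i, hi, hj⟩)
        simp [h1]
      · simp [hi])
    refine ⟨N, fun m hm' => ?_⟩
    have h1 := hN m hm'
    have hgm : Measurable g := by
      apply (meas_cube hm I f).comp
      rw [measurable_pi_iff]
      intro i
      by_cases hi : i ∈ S
      · simp only [hi, if_true]
        exact measurable_pi_apply i
      · simp only [hi, if_false]
        exact measurable_const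
    have hi1 : Integrable (fun ω => f (Yn n ω)) (coin (I × ℕ)) :=
      Integrable.of_bound ((meas_cube hm I f).comp (hYn n)).aestronglyMeasurable ‖f‖
        (Eventually.of_forall fun ω => hbd f _)
    have hi2 : Integrable (fun ω => g (Yn n ω)) (coin (I × ℕ)) :=
      Integrable.of_bound (hgm.comp (hYn n)).aestronglyMeasurable ‖f‖
        (Eventually.of_forall fun ω => hbd f _)
    have h2 : |∫ ω, f (Yn n ω) ∂coin (I × ℕ) - ∫ ω, g (Yn n ω) ∂coin (I × ℕ)| ≤ ε / 4 := by
      rw [← integral_sub hi1 hi2, ← Real.norm_eq_abs]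
      have h3 := norm_integral_le_of_norm_le_const (μ := coin (I × ℕ)) (C := ε / 4)
        (f := fun ω => f (Yn n ω) - g (Yn n ω)) (Eventually.of_forall fun ω => by
          rw [Real.norm_eq_abs]
          exact (hg _).le)
      simpa using h3
    have h3 : |(∑ w : (Fin m → Bool) → Bool, f (Yn n (fun j => w (res m (e' j))))) / 2 ^ 2 ^ m -
        (∑ w : (Fin m → Bool) → Bool, g (Yn n (fun j => w (res m (e' j))))) / 2 ^ 2 ^ m| ≤
        ε / 4 := by
      rw [← sub_div, ← Finset.sum_sub_distrib, abs_div, abs_of_pos (by positivity :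
        (0 : ℝ) < 2 ^ 2 ^ m), div_le_iff₀ (by positivity)]
      calc |∑ w : (Fin m → Bool) → Bool, (f (Yn n (fun j => w (res m (e' j)))) -
            g (Yn n (fun j => w (res m (e' j)))))| ≤ ∑ w : (Fin m → Bool) → Bool,
            |f (Yn n (fun j => w (res m (e' j)))) - g (Yn n (fun j => w (res m (e' j))))| :=
              Finset.abs_sum_le_sum_abs _ _
        _ ≤ ∑ _w : (Fin m → Bool) → Bool, ε / 4 := Finset.sum_le_sum fun w _ => (hg _).le
        _ = ε / 4 * 2 ^ 2 ^ m := by
          rw [Finset.sum_const, Finset.card_univ, Fintype.card_fun, Fintype.card_bool,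
            Fintype.card_fun, Fintype.card_bool, Fintype.card_fin, nsmul_eq_mul]
          push_cast
          ring
    rw [Real.dist_eq]
    rw [h1] at h3
    rw [abs_le] at h2 h3
    rw [abs_lt]
    constructor <;> linarith [h2.1, h2.2, h3.1, h3.2]

theorem los (hu : UniStmt) (hm : MeasfStmt) (hB : LosBStmt) (hC : LosCStmt)
    (hD : LosDStmt) : LosStmt := by
  intro I e he ν hν
  by_cases h0 : ν = 0
  · subst h0
    simp only [integral_zero_measure]
    exact tame_const 0
  · have h1 : ν Set.univ ≠ 0 := by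
      rwa [Ne, Measure.measure_univ_eq_zero]
    have hp : IsProbabilityMeasure ((ν Set.univ)⁻¹ • ν) := by
      constructor
      rw [Measure.smul_apply, smul_eq_mul]
      exact ENNReal.inv_mul_cancel h1 (measure_ne_top ν _)
    have h2 := los_prob hu hm hB hC hD I e he ((ν Set.univ)⁻¹ • ν)
    have h3 : (fun f : C(I → Bool, ℝ) => ∫ p, f p ∂ν) =
        fun f => (ν Set.univ).toReal * ∫ p, f p ∂((ν Set.univ)⁻¹ • ν) := by
      funext f
      rw [integral_smul_measure, smul_eq_mul, ← mul_assoc, ENNReal.toReal_inv,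
        mul_inv_cancel₀, one_mul]
      exact ENNReal.toReal_ne_zero.2 ⟨h1, measure_ne_top ν _⟩
    rw [h3]
    exact tame_mul_const h2 _

end Pool.Agent.SQS.H18
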