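import Pool.Agent.Helper94_SQS.Stmts

/-!
# LOSC, LOSD
-/

set_option autoImplicit false

open MeasureTheory Filter Topology

namespace Pool.Agent.SQS.H18

theorem losc : LosCStmt := by
  intro I E hE ε hε
  have h1 := Measure.MeasureDense.of_generateFrom_isSetAlgebra_finite (coin I)
    (isSetAlgebra_measurableCylinders (α := fun _ : I => Bool))
    generateFrom_measurableCylinders.symm
  obtain ⟨E', hE', h2⟩ := h1.approx E hE (measure_ne_top _ _) ε hε
  rw [mem_measurableCylinders] at hE'
  obtain ⟨J, S, -, rfl⟩ := hE'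
  refine ⟨J, cylinder J S, fun p q hpq => ?_, h2.le⟩
  rw [mem_cylinder, mem_cylinder]
  have h3 : J.restrict p = J.restrict q := by
    funext j
    exact hpq j j.2
  rw [h3]

theorem unif_singleton (b : Bool) : unif {b} = 1 / 2 := by
  unfold unif
  rw [PMF.toMeasure_apply_singleton _ _ (measurableSet_singleton _)]
  simp

/-- restriction of functions along an injection -/
theorem sum_restrict {W J : Type} [Fintype W] [DecidableEq W] [Fintype J] [DecidableEq J]
    (ι : J → W) (hι : Function.Injective ι) (H : (J → Bool) → ℝ) :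
    (∑ w : W → Bool, H (fun j => w (ι j))) / 2 ^ Fintype.card W =
      (∑ a : J → Bool, H a) / 2 ^ Fintype.card J := by
  classical
  let p : W → Prop := fun w => w ∈ Set.range ι
  let eq1 : (W → Bool) ≃ ({w // p w} → Bool) × ({w // ¬ p w} → Bool) :=
    Equiv.piEquivPiSubtypeProd p (fun _ => Bool)
  let eq2 : J ≃ {w // p w} := Equiv.ofInjective ι hι
  have h1 : ∑ w : W → Bool, H (fun j => w (ι j)) =
      ∑ x : ({w // p w} → Bool) × ({w // ¬ p w} → Bool), H (fun j => x.1 (eq2 j)) := by
    apply Fintype.sum_equiv eq1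
    intro w
    rfl
  have h2 : ∑ x : ({w // p w} → Bool) × ({w // ¬ p w} → Bool), H (fun j => x.1 (eq2 j)) =
      2 ^ Fintype.card {w // ¬ p w} * ∑ a : J → Bool, H a := by
    rw [Fintype.sum_prod_type]
    simp only [Finset.sum_const, Finset.card_univ, Fintype.card_fun, Fintype.card_bool,
      nsmul_eq_mul]
    rw [← Finset.mul_sum]
    push_cast
    congr 1
    apply Fintype.sum_equiv (Equiv.arrowCongr eq2.symm (Equiv.refl Bool))
    intro w
    rfl
  have h3 : Fintype.card W = Fintype.card J + Fintype.card {w // ¬ p w} := by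
    have h4 : Fintype.card J = Fintype.card {w // p w} := Fintype.card_congr eq2
    rw [h4, Fintype.card_subtype_compl, Nat.add_sub_cancel' (Fintype.card_subtype_le _)]
  rw [h1, h2, h3, pow_add]
  have h5 : (2 : ℝ) ^ Fintype.card J ≠ 0 := by positivity
  have h6 : (2 : ℝ) ^ Fintype.card {w // ¬ p w} ≠ 0 := by positivity
  field_simp

/-- the integral of a function of finitely many coins -/
theorem integral_coin (I : Type) [DecidableEq I] (J : Finset I) (H : (J → Bool) → ℝ) :
    ∫ p, H (J.restrict p) ∂coin I = (∑ a : J → Bool, H a) / 2 ^ J.card := by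
  have h0 : ∫ p, H (J.restrict p) ∂coin I = ∫ a, H a ∂(Measure.pi fun _ : J => unif) :=
    integral_restrict_infinitePi (X := fun _ : I => Bool) (μ := fun _ : I => unif) (s := J)
      (measurable_of_finite H).aestronglyMeasurable
  rw [h0, integral_fintype (Integrable.of_finite)]
  rw [Finset.sum_div]
  refine Finset.sum_congr rfl fun a _ => ?_
  have h1 : (Measure.pi fun _ : J => unif) {a} = (1 / 2) ^ J.card := by
    rw [Measure.pi_singleton]
    simp only [unif_singleton]
    rw [Finset.prod_const, Finset.card_univ, Fintype.card_coe]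
  rw [Measure.real, h1, smul_eq_mul]
  rw [ENNReal.toReal_pow]
  simp
  field_simp

theorem losd : LosDStmt := by
  intro I e he h J hJ
  classical
  -- distinct restrictions
  have h1 : ∃ N, ∀ m, N ≤ m → ∀ i ∈ J, ∀ j ∈ J, res m (e i) = res m (e j) → i = j := by
    have h2 : ∀ x : J × J, ∃ N, ∀ m, N ≤ m → res m (e x.1.1) = res m (e x.2.1) →
        x.1.1 = x.2.1 := by
      intro x
      by_cases hx : x.1.1 = x.2.1
      · exact ⟨0, fun _ _ _ => hx⟩
      · have h3 : e x.1.1 ≠ e x.2.1 := fun h => hx (he h)
        obtain ⟨k, hk⟩ := Function.ne_iff.1 h3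
        refine ⟨k + 1, fun m hm h4 => ?_⟩
        exact absurd (congrFun h4 ⟨k, by omega⟩) hk
    choose N hN using h2
    refine ⟨Finset.univ.sup N, fun m hm i hi j hj hij => ?_⟩
    exact hN (⟨i, hi⟩, ⟨j, hj⟩) m ((Finset.le_sup (Finset.mem_univ _)).trans hm) hij
  obtain ⟨N, hN⟩ := h1
  refine ⟨N, fun m hm => ?_⟩
  let H : (J → Bool) → ℝ := fun a => h (fun i => if hi : i ∈ J then a ⟨i, hi⟩ else false)
  have hH : ∀ p : I → Bool, h p = H (fun j => p j) := by
    intro p
    apply hJ
    intro j hj
    simp [hj]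
  have hι : Function.Injective (fun j : J => res m (e j)) := by
    intro i j hij
    exact Subtype.ext (hN m hm i i.2 j j.2 hij)
  have h2 := sum_restrict (fun j : J => res m (e j)) hι H
  have h3 : ∑ w : (Fin m → Bool) → Bool, h (fun i => w (res m (e i))) =
      ∑ w : (Fin m → Bool) → Bool, H (fun j => w (res m (e j))) :=
    Finset.sum_congr rfl fun w _ => hH _
  have h4 : ∫ p, h p ∂coin I = ∫ p, H (J.restrict p) ∂coin I :=
    integral_congr_ae (Eventually.of_forall fun p => hH p)
  rw [h3, h4, integral_coin]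
  rw [Fintype.card_fun, Fintype.card_bool, Fintype.card_fin, Fintype.card_coe] at h2
  exact h2

end Pool.Agent.SQS.H18
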