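import Pool.Agent.Helper94_SQS.Stmts

/-!
# UNI, MEASF, REP
-/

set_option autoImplicit false

open MeasureTheory Filter Topology

namespace Pool.Agent.SQS.H18

theorem uni : UniStmt := by
  intro I K hK f ε hε
  have : CompactSpace K := isCompact_iff_compactSpace.1 hK.isCompact
  have h1 : ∀ p : K, ∃ S : Finset I, ∀ q : K, (∀ i ∈ S, q.1 i = p.1 i) → |f q - f p| < ε / 2 := by
    intro p
    have hU : {q : K | |f q - f p| < ε / 2} ∈ 𝓝 p := by
      have h2 := f.continuous.tendsto p
      rw [Metric.tendsto_nhds] at h2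
      exact h2 (ε / 2) (by linarith)
    rw [mem_nhds_subtype] at hU
    obtain ⟨u, hu, hu2⟩ := hU
    rw [nhds_pi, Filter.mem_pi] at hu
    obtain ⟨S, hS, t, ht, hSt⟩ := hu
    refine ⟨hS.toFinset, fun q hq => ?_⟩
    have h3 : q.1 ∈ u := by
      apply hSt
      intro i hi
      rw [hq i (hS.mem_toFinset.2 hi)]
      exact mem_of_mem_nhds (ht i)
    exact hu2 h3
  choose S hS using h1
  have h2 : ∀ p : K, {q : K | ∀ i ∈ S p, q.1 i = p.1 i} ∈ 𝓝 p := by
    intro p
    apply IsOpen.mem_nhds
    · have h3 : {q : K | ∀ i ∈ S p, q.1 i = p.1 i} = ⋂ i ∈ S p, {q : K | q.1 i = p.1 i} := by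
        ext q; simp
      rw [h3]
      refine isOpen_biInter_finset fun i _ => ?_
      have hc : Continuous fun q : K => q.1 i :=
        (continuous_apply i).comp continuous_subtype_val
      exact (isOpen_discrete ({p.1 i} : Set Bool)).preimage hc
    · exact fun i _ => rfl
  obtain ⟨t, ht⟩ := CompactSpace.elim_nhds_subcover _ h2
  classical
  refine ⟨t.biUnion S, fun p q hpq => ?_⟩
  have h3 : p ∈ ⋃ x ∈ t, {q : K | ∀ i ∈ S x, q.1 i = x.1 i} := by
    rw [ht]
    exact Set.mem_univ p
  rw [Set.mem_iUnion₂] at h3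
  obtain ⟨x, hx, hpx⟩ := h3
  have e1 := hS x p hpx
  have e2 := hS x q (fun i hi => by
    rw [← hpq i (Finset.mem_biUnion.2 ⟨x, hx, hi⟩)]
    exact hpx i hi)
  calc |f p - f q| = |(f p - f x) - (f q - f x)| := by ring_nf
    _ ≤ |f p - f x| + |f q - f x| := abs_sub _ _
    _ < ε := by linarith

theorem measf (h : UniStmt) : MeasfStmt := by
  intro I K hK f
  classical
  choose S hS using fun n : ℕ => h I K hK f (1 / ((n : ℝ) + 1)) Nat.one_div_pos_of_nat
  let g : ∀ n : ℕ, (S n → Bool) → ℝ := fun n a =>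
    if h : ∃ q : K, ∀ i : S n, q.1 i = a i then f h.choose else 0
  let F : ℕ → K → ℝ := fun n p => g n (fun i => p.1 i)
  have hF : ∀ n, Measurable (F n) := by
    intro n
    have h1 : Measurable (g n) := measurable_of_finite _
    apply h1.comp
    rw [measurable_pi_iff]
    intro i
    exact (measurable_pi_apply _).comp measurable_subtype_coe
  have hlim : Tendsto F atTop (𝓝 (fun p => f p)) := by
    rw [tendsto_pi_nhds]
    intro p
    rw [tendsto_iff_dist_tendsto_zero]
    refine squeeze_zero (fun _ => dist_nonneg) (fun n => ?_) tendsto_one_div_add_atTop_nhds_zero_nat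
    have hex : ∃ q : K, ∀ i : S n, q.1 i = (fun i : S n => p.1 i) i := ⟨p, fun _ => rfl⟩
    have h2 : F n p = f hex.choose := dif_pos hex
    rw [h2, Real.dist_eq]
    exact (hS n _ _ (fun i hi => hex.choose_spec ⟨i, hi⟩)).le
  exact measurable_of_tendsto_metrizable hF hlim

/-- Riesz representation on a compact space -/
theorem riesz_compact (X : Type) [TopologicalSpace X] [CompactSpace X] [T2Space X]
    [MeasurableSpace X] [BorelSpace X] (φ : C(X, ℝ) →L[ℝ] ℝ) (hφ : Pos φ) :
    ∃ μ : Measure X, IsFiniteMeasure μ ∧ ∀ f : C(X, ℝ), φ f = ∫ p, f p ∂μ := by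
  let Λ0 : CompactlySupportedContinuousMap X ℝ →ₗ[ℝ] ℝ :=
    { toFun := fun f => φ f.toContinuousMap
      map_add' := fun f g => by
        have h1 : (f + g).toContinuousMap = f.toContinuousMap + g.toContinuousMap := rfl
        rw [h1, map_add]
      map_smul' := fun c f => by
        have h1 : (c • f).toContinuousMap = c • f.toContinuousMap := rfl
        rw [h1, map_smul]
        rfl }
  let Λ : PositiveLinearMap ℝ (CompactlySupportedContinuousMap X ℝ) ℝ :=
    PositiveLinearMap.mk₀ Λ0 (fun f hf => hφ _ (fun x => hf x))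
  refine ⟨RealRMK.rieszMeasure Λ, inferInstance, fun f => ?_⟩
  exact (RealRMK.integral_rieszMeasure Λ
    (CompactlySupportedContinuousMap.continuousMapEquiv f)).symm

theorem meas_val {X I : Type} [TopologicalSpace X] [MeasurableSpace X] [BorelSpace X]
    (v : X → I → Bool) (hv : Continuous v) : Measurable v :=
  measurable_pi_iff.2 fun i => ((continuous_apply i).comp hv).measurable

theorem trim_fin {X : Type} (m m' : MeasurableSpace X) (hle : m ≤ m') (μ : @Measure X m')
    (hμ : @IsFiniteMeasure X m' μ) : ∃ ν : @Measure X m, @IsFiniteMeasure X m ν ∧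
      ∀ f : X → ℝ, @Measurable X ℝ m _ f → @integral X ℝ _ _ m' μ f = @integral X ℝ _ _ m ν f := by
  refine ⟨μ.trim hle, isFiniteMeasure_trim hle, fun f hf => ?_⟩
  exact integral_trim hle hf.stronglyMeasurable

theorem rep (h : MeasfStmt) : RepStmt := by
  intro I K hK φ hφ
  have : CompactSpace K := isCompact_iff_compactSpace.1 hK.isCompact
  have hex : ∃ μ : @Measure K (borel K), @IsFiniteMeasure K (borel K) μ ∧
      ∀ f : C(K, ℝ), φ f = @integral K ℝ _ _ (borel K) μ (fun p => f p) :=
    @riesz_compact K _ _ _ (borel K) (@BorelSpace.mk K _ (borel K) rfl) φ hφ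
  obtain ⟨μ, hμ, hf⟩ := hex
  have hid := @meas_val K I _ (borel K) (@BorelSpace.mk K _ (borel K) rfl) Subtype.val continuous_subtype_val
  have hle : (Subtype.instMeasurableSpace : MeasurableSpace K) ≤ borel K := by
    intro s hs
    obtain ⟨t, ht, rfl⟩ := hs
    exact hid ht
  obtain ⟨ν, hν, hν2⟩ := trim_fin _ _ hle μ hμ
  exact ⟨ν, hν, fun f => (hf f).trans (hν2 _ (h I K hK f))⟩

end Pool.Agent.SQS.H18
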